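import Mathlib
import Pool.Agent.W307.SE.Locp
import Pool.Agent.W307.SE.Fin
import Pool.Agent.W12.RS.Rank2B
import Pool.Agent.W214.RS.Rank4b
import Pool.Agent.W701.FK.Find

/-!
The bound of the 2-Selmer group by the local count, in the families of short squares and of short
intervals (after `Pool.Agent.W12.RS.Rank2B`, `Pool.Agent.W214.RS.Rank4b`).
-/

set_option autoImplicit false
set_option linter.all false

namespace Pool.Agent.TH344.SG

open Finset Pool.Agent.W262.RK Pool.Agent.W307.RT Pool.Agent.W571.RT Pool.Agent.W307.SE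
open Pool.Agent.W307.RS

theorem sel2b : SEL2B := by
  intro J _ _ cls a μ α β z B hc3 ha0 hμ hB ha hev hκ0 hκ hodd hFF X y k u v huv h0 hb hX hy hk
  have hF := hFF u v
  set f := fv α β u v with hf
  have hFne : ∀ k, FM cls a μ f k ≠ 0 := fun k =>
    mul_ne_zero (ha0 k) (prod_ne_zero_iff.2 fun l _ => pow_ne_zero _ (h0 l))
  have hz2 : 2 ≤ z := by have := hB.1; omega
  set s := S1 z y f with hs
  have hmem : s ∈ Tup J z y := S1_mem (fun p hp hzp j l hjl h =>
    fv_not_dvd hB hp hzp huv hjl h.1 h.2)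
  have hmd : ∏ j, s j ∣ PP z y := Tup_prod_dvd hmem
  have hPSof : ∀ p : ℕ, p.Prime → p ∣ ∏ j, s j → p ∈ PS z y := fun p hp h =>
    (prime_dvd_PP hp).1 (h.trans hmd)
  have hnκ : ∀ p : ℕ, p.Prime → p ∣ ∏ j, s j → ∀ j, ¬ (p : ℤ) ∣ kapM cls a μ α β j := by
    intro p hp h j hd
    have h1 := (mem_PS.1 (hPSof p hp h)).1.1
    have h2 := Nat.le_of_dvd (Int.natAbs_pos.2 (hκ0 j)) (Int.natCast_dvd.1 hd)
    have h3 := hκ j
    omega
  have hodd2 : ∀ p : ℕ, p.Prime → p ∣ ∏ j, s j → p ≠ 2 := by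
    intro p hp h
    have h1 := (mem_PS.1 (hPSof p hp h)).1.1
    omega
  have hxc : XCL := Pool.Agent.W342.RK2.xcl
  have hloc : LOCMP := locmp_of Pool.Agent.W407.SE.ratp
  have hd := Pool.Agent.W701.FK.seld' (∏ j, s j) (LLs cls (fun j _ => kapM cls a μ α β j) s ∅)
    (FM cls a μ f 0) (FM cls a μ f 1) (hFne 0) (hFne 1)
    (fun h => hFne 2 (by rw [← hF, h, sub_self]))
    (by
      rw [← Nat.not_even_iff_odd, even_iff_two_dvd]
      intro h
      exact hodd2 2 Nat.prime_two h rfl)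
    ((PP_squarefree z y).squarefree_of_dvd hmd)
    (fun p hp hpd => ⟨fun j hj => (hxc _ _ _ p hp (hodd2 p hp hpd)
        (fun _ => hnκ p hp hpd j)).1,
      fun a1 b1 c1 d1 a2 b2 c2 d2 e1 e2 j hj =>
        (hxc _ _ _ p hp (hodd2 p hp hpd) (fun _ => hnκ p hp hpd j)).2 a1 b1 c1 d1 a2 b2 c2 d2
          (e1 j hj) (e2 j hj)⟩)
    (fun p hp hpd x x' hx' hcurve e1 e2 he1 he2 hsq1 hsq2 j hj => by
      have hpp : p.Prime := Fact.out
      have hjs := (S1_dvd_iff hpp).1 hj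
      have hzp := (mem_PS.1 hjs.1).1.1
      have hfin := hloc (cls j) (kapM cls a μ α β j) p (FM cls a μ f 0) (FM cls a μ f 1) (hc3 j)
        (hodd2 p hpp hpd) (hnκ p hpp hpd j) (hFne 0) (hFne 1)
        (fun h => hFne 2 (by rw [← hF, h, sub_self]))
        (locHM hB ha hev hμ hpp hzp huv hF (h0 j) hjs.2.1 hjs.2.2 (hc3 j) (hnκ p hpp hpd j)
          (hodd j)) x x' hx' hcurve e1 e2 he1 he2 hsq1 hsq2
      have hdec : decide (p ∈ (∅ : Finset ℕ)) = false := by simp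
      rw [hdec]
      exact hfin)
  rw [hF] at hd
  refine ⟨hd.1, hd.2.trans (Nat.mul_le_mul_right _ ?_)⟩
  have hc := Pool.Agent.W12.RS.badMB (cls := cls) (μ := μ) (y := y) hB ha hy h0 hb hk
  rw [← hf, ← hs] at hc
  calc 4 ^ (((2 * FM cls a μ f 0 * FM cls a μ f 1 *
        FM cls a μ f 2).natAbs.primeFactors.filter (fun q => ¬ q ∣ ∏ j, s j)).card + 2)
      ≤ 4 ^ ((z + 2) + (Fintype.card J * (B * k)) + ∑ j, (S2 z y f j).primeFactors.card) :=
        Nat.pow_le_pow_right (by norm_num) (by omega)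
    _ = _ := by
        rw [pow_add, pow_add]
        congr 2
        rw [← pow_mul, ← pow_mul]
        congr 1
        ring

theorem sel4b : SEL4B := by
  intro J _ _ cls a α β z y X k B hB ha hκ0 hκ t hF h0 hb hX hy hk
  have hxc : XCL := Pool.Agent.W342.RK2.xcl
  have hloc : LOCLP := loclp_of Pool.Agent.W407.SE.ratp
  have hFne : ∀ k, F4 cls a α β t k ≠ 0 := fun k =>
    mul_ne_zero (ha k) (prod_ne_zero_iff.2 fun l _ => h0 l)
  have hz2 : 2 ≤ z := by have := hB.1.1; omega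
  set s := s1 α β z y t with hs
  have hmem : s ∈ Tup J z y := s1_mem hB.1 t
  have hmd : ∏ j, s j ∣ PP z y := Tup_prod_dvd hmem
  have hPSof : ∀ p : ℕ, p.Prime → p ∣ ∏ j, s j → p ∈ PS z y := fun p hp h =>
    (prime_dvd_PP hp).1 (h.trans hmd)
  have hnκ : ∀ p : ℕ, p.Prime → p ∣ ∏ j, s j → ∀ j k, ¬ (p : ℤ) ∣ kap4 cls a α β j k := by
    intro p hp h j k hd
    have h1 := (mem_PS.1 (hPSof p hp h)).1.1
    have h2 := Nat.le_of_dvd (Int.natAbs_pos.2 (hκ0 j k)) (Int.natCast_dvd.1 hd)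
    have h3 := hκ j k
    omega
  have hodd : ∀ p : ℕ, p.Prime → p ∣ ∏ j, s j → p ≠ 2 := by
    intro p hp h
    have h1 := (mem_PS.1 (hPSof p hp h)).1.1
    omega
  have hd := Pool.Agent.W701.FK.seld' (∏ j, s j)
    (LLs cls (kap4 cls a α β) s (neg3 cls α β t s))
    (F4 cls a α β t 0) (F4 cls a α β t 1) (hFne 0) (hFne 1)
    (fun h => hFne 2 (by rw [← hF, h, sub_self]))
    (by
      rw [← Nat.not_even_iff_odd, even_iff_two_dvd]
      intro h
      exact hodd 2 Nat.prime_two h rfl)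
    ((PP_squarefree z y).squarefree_of_dvd hmd)
    (fun p hp hpd => ⟨fun j hj => (hxc _ _ _ p hp (hodd p hp hpd) (hnκ p hp hpd j)).1,
      fun a1 b1 c1 d1 a2 b2 c2 d2 e1 e2 j hj =>
        (hxc _ _ _ p hp (hodd p hp hpd) (hnκ p hp hpd j)).2 a1 b1 c1 d1 a2 b2 c2 d2
          (e1 j hj) (e2 j hj)⟩)
    (fun p hp hpd x x' hx' hcurve e1 e2 he1 he2 hsq1 hsq2 j hj => by
      have hpp : p.Prime := Fact.out
      have hjs : p ∈ PS z y ∧ (p : ℤ) ∣ ff α β t j ∧ ¬ (p : ℤ) ^ 2 ∣ ff α β t j := by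
        have h3 : p ∣ ∏ q ∈ (PS z y).filter (fun p : ℕ => (p : ℤ) ∣ ff α β t j ∧
          ¬ (p : ℤ) ^ 2 ∣ ff α β t j), q := hj
        exact mem_filter.1 ((prime_dvd_prodS (fun q hq => (mem_PS.1 (mem_filter.1 hq).1).2) hpp).1 h3)
      have hzp := (mem_PS.1 hjs.1).1.1
      refine hloc (cls j) (kap4 cls a α β j) _ p _ _ (hodd p hpp hpd) (hnκ p hpp hpd j)
        (locH4 hB hpp hzp hF hjs.2.1 hjs.2.2 (fun h3 => ?_)) x x' hx' hcurve e1 e2 he1 he2 hsq1 hsq2
      rw [decide_eq_true_eq]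
      unfold neg3 P3
      rw [mem_filter, Nat.mem_primeFactors]
      constructor
      · rintro ⟨_, l, hl3, hl, hl2⟩
        have : l = j := by
          by_contra hne
          have h4 := (mem_Tup'.1 hmem).2 l j hne
          exact hpp.one_lt.ne' (Nat.dvd_one.1 (h4 ▸ Nat.dvd_gcd hl hj))
        rwa [this] at hl2
      · intro h5
        refine ⟨⟨hpp, dvd_trans hj (dvd_prod_of_mem s (mem_filter.2 ⟨mem_univ _, h3⟩)), ?_⟩,
          j, h3, hj, h5⟩
        exact prod_ne_zero_iff.2 fun l _ => (Tup_pos hmem l).ne')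
  rw [hF] at hd
  refine ⟨hd.1, hd.2.trans (Nat.mul_le_mul_right _ ?_)⟩
  have hc := Pool.Agent.W214.RS.bad4B (cls := cls) (y := y) hB hX hy h0 hb hk
  rw [← hs] at hc
  calc 4 ^ (((2 * F4 cls a α β t 0 * F4 cls a α β t 1 *
        F4 cls a α β t 2).natAbs.primeFactors.filter (fun q => ¬ q ∣ ∏ j, s j)).card + 2)
      ≤ 4 ^ ((z + 2) + (Fintype.card J * (B * k)) + ∑ j, (s2 α β z y t j).primeFactors.card) :=
        Nat.pow_le_pow_right (by norm_num) (by omega)
    _ = _ := by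
        rw [pow_add, pow_add]
        congr 2
        rw [← pow_mul, ← pow_mul]
        congr 1
        ring

/-- short squares: the 2-Selmer groups of the families given by binary forms -/
theorem famg : FAMG SN :=
  famg_of SN_nonneg (avg2g_of SN_nonneg (r2 sel2b)
    (Pool.Agent.W839.RS.cnt2s_of Pool.Agent.W340.RT.SVR2.svr2 Pool.Agent.W405.RS.avhs) antu)

/-- short intervals: the moments of the 2-Selmer groups of the twists -/
theorem avgkg : AVGKG SN :=
  avgkg_of SN_nonneg (Pool.Agent.W337.RS.cnt4u_of Pool.Agent.W340.RT.SVR2.svr2) (r4 sel4b) antu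
    Pool.Agent.W925.RS.subbk (mak_of Pool.Agent.W125.RS.expk Pool.Agent.W12.RS.combk)

end Pool.Agent.TH344.SG
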