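import Pool.Agent.TH344.SH.Cnt
import Pool.Agent.W597.SE.SELC

/-!
Locally trivial cocycles with values in the points of order two and the 2-Selmer group of the
curves with three integer roots, general form.
-/

set_option autoImplicit false
set_option linter.all false

open WeierstrassCurve WeierstrassCurve.Affine
open scoped Classical
open Pool.Agent.W307.SE Pool.Agent.W307.RT
open Pool.Agent.W309.TD (Pt act act_zero act_some act_inj act_act two_act rs incl rs_apply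
  rs_act_incl exists_root compare au au_apply exists_restrict)

namespace Pool.Agent.TH344.SG

open Pool.Agent.TH344.SH (QB GQ Points pmap IsCocycle IsCoboundary LocallyTrivial IsShaCocycle
  shaCocycles coboundaries Sha ShaTorsion IsR sg sg_sq sg_add sg_act act_tor tor_ext halve_sep
  add_self_eq_zero_iff loc_sq galQB tor4_finite hensn inc inc_some inc_inj inc_fix exists_inc
  cob_sha dbl mem_dbl)

/-- the curve `y² = (x - e 0) (x - e 1) (x - e 2)`, distinct integer roots -/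
structure Rt (W : WeierstrassCurve ℚ) (e : Fin 3 → ℤ) : Prop where
  a1 : W.a₁ = 0
  a2 : W.a₂ = -((e 0 : ℚ) + e 1 + e 2)
  a3 : W.a₃ = 0
  a4 : W.a₄ = (e 0 : ℚ) * e 1 + e 0 * e 2 + e 1 * e 2
  a6 : W.a₆ = -((e 0 : ℚ) * e 1 * e 2)
  n01 : e 0 ≠ e 1
  n02 : e 0 ≠ e 2
  n12 : e 1 ≠ e 2

variable {W : WeierstrassCurve ℚ} {e : Fin 3 → ℤ}

lemma isR (h : Rt W e) (L : Type) [Field L] [Algebra ℚ L] : IsR (W.baseChange L).toAffine
      (algebraMap ℚ L (e 0)) (algebraMap ℚ L (e 1)) (algebraMap ℚ L (e 2)) := by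
  haveI : CharZero L := algebraRat.charZero L
  have inj : ∀ a b : ℤ, a ≠ b → algebraMap ℚ L (a : ℚ) ≠ algebraMap ℚ L (b : ℚ) := by
    intro a b hab h0
    exact hab (by exact_mod_cast (algebraMap ℚ L).injective h0)
  refine ⟨?_, ?_, ?_, ?_, ?_, two_ne_zero, inj _ _ h.n01, inj _ _ h.n02, inj _ _ h.n12⟩
  · show algebraMap ℚ L W.a₁ = 0
    rw [h.a1, map_zero]
  · show algebraMap ℚ L W.a₂ = _
    rw [h.a2, map_neg, map_add, map_add]
  · show algebraMap ℚ L W.a₃ = 0
    rw [h.a3, map_zero]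
  · show algebraMap ℚ L W.a₄ = _
    rw [h.a4]
    simp only [map_add, map_mul]
  · show algebraMap ℚ L W.a₆ = _
    rw [h.a6]
    simp only [map_neg, map_mul]

/-- every root can be taken first -/
lemma isRi (h : Rt W e) (i : Fin 3) : ∃ b c : ℚ, ∀ (L : Type) [Field L] [Algebra ℚ L],
    IsR (W.baseChange L).toAffine (algebraMap ℚ L (e i)) (algebraMap ℚ L b) (algebraMap ℚ L c) := by
  fin_cases i
  · exact ⟨e 1, e 2, fun L _ _ => isR h L⟩
  · exact ⟨e 0, e 2, fun L _ _ => (isR h L).swap⟩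
  · exact ⟨e 0, e 1, fun L _ _ => (isR h L).rot⟩

/-- the squarefree integers attached to a cocycle -/
def Rep (W : WeierstrassCurve ℚ) (e : Fin 3 → ℤ) (f : GQ → Points W QB) (d : Fin 3 → ℤ) : Prop :=
  (∀ i, Squarefree (d i)) ∧ ∀ i, ∃ t : QB, t ≠ 0 ∧ t ^ 2 = algebraMap ℚ QB (d i) ∧
    ∀ σ : GQ, σ t = sg (algebraMap ℚ QB (e i : ℚ)) (f σ) * t

lemma exists_rep (h : Rt W e) {f : GQ → Points W QB} (hf : IsCocycle W f)
    (hf2 : ∀ σ, f σ + f σ = 0) : ∃ d, Rep W e f d := by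
  haveI := galQB
  have hadd : ∀ σ τ, f (σ * τ) = f σ + f τ := fun σ τ => by
    rw [hf.2]
    congr 1
    exact act_tor W (isR h QB) _ (hf2 τ)
  have key : ∀ i : Fin 3, ∃ d : ℤ, Squarefree d ∧
      (∃ t : QB, t ≠ 0 ∧ t ^ 2 = algebraMap ℚ QB d ∧
        ∀ σ : GQ, σ t = sg (algebraMap ℚ QB (e i : ℚ)) (f σ) * t) := by
    intro i
    obtain ⟨b, c, hR0⟩ := isRi h i
    have hR := hR0 QB
    obtain ⟨s, a, hs0, hsa, hσ⟩ := exists_root (K := ℚ) (Ω := QB) two_ne_zero
      (fun σ => sg (algebraMap ℚ QB (e i : ℚ)) (f σ)) (fun σ => sg_sq _ _) (fun σ τ => by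
        show sg _ (f (σ * τ)) = sg _ (f σ) * sg _ (f τ)
        rw [hadd]
        exact sg_add hR (hf2 σ) (hf2 τ)) (hf.1.comp (sg (algebraMap ℚ QB (e i : ℚ))))
    have ha0 : a ≠ 0 := by
      rintro rfl
      rw [map_zero] at hsa
      exact pow_ne_zero 2 hs0 hsa
    obtain ⟨d, hd1, r, hr⟩ := Pool.Agent.W214.RK2.exists_rep a ha0
    have hd0 : (d : ℚ) ≠ 0 := by exact_mod_cast hd1.ne_zero
    have hr0 : r ≠ 0 := by
      rintro rfl
      rw [mul_zero] at hr
      exact mul_ne_zero ha0 hd0 hr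
    refine ⟨d, hd1, algebraMap ℚ QB r / s, ?_, ?_, ?_⟩
    · exact div_ne_zero ((map_ne_zero _).2 hr0) hs0
    · rw [div_pow, hsa, div_eq_iff ((map_ne_zero _).2 ha0), ← map_pow, ← map_mul]
      congr 1
      rw [pow_two, ← hr, mul_comm]
    · intro σ
      rw [map_div₀, hσ, σ.commutes]
      rcases sg_sq (algebraMap ℚ QB (e i : ℚ)) (f σ) with h | h <;> rw [h]
      · rw [one_mul, one_mul]
      · rw [neg_one_mul, neg_one_mul, div_neg]
  choose d h1 h2 using key
  exact ⟨d, h1, h2⟩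

lemma rep_inj (h : Rt W e) {f f' : GQ → Points W QB} (hf2 : ∀ σ, f σ + f σ = 0)
    (hf2' : ∀ σ, f' σ + f' σ = 0) {d : Fin 3 → ℤ} (hd : Rep W e f d) (hd' : Rep W e f' d) :
    f = f' := by
  have key : ∀ i : Fin 3, ∀ σ, sg (algebraMap ℚ QB (e i : ℚ)) (f σ) =
      sg (algebraMap ℚ QB (e i : ℚ)) (f' σ) := by
    intro i σ
    obtain ⟨t, ht, htd, hσ⟩ := hd.2 i
    obtain ⟨t', ht', htd', hσ'⟩ := hd'.2 i
    rw [← htd'] at htd
    have h1 := hσ σ
    have h2 := hσ' σ
    rcases sq_eq_sq_iff_eq_or_eq_neg.1 htd with rfl | rfl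
    · rw [h1] at h2
      exact mul_right_cancel₀ ht h2
    · rw [map_neg, h2] at h1
      have h3 : sg (algebraMap ℚ QB (e i : ℚ)) (f' σ) * t' =
        sg (algebraMap ℚ QB (e i : ℚ)) (f σ) * t' := by linear_combination -h1
      exact (mul_right_cancel₀ ht' h3).symm
  funext σ
  exact tor_ext (isR h QB) (hf2 σ) (hf2' σ) (key 0 σ) (key 1 σ)

/-- the local condition -/
def LocG (K : Type) [Field K] (e d : Fin 3 → ℤ) : Prop :=
  ∃ x y : K, y ≠ 0 ∧ y ^ 2 = (x - e 0) * (x - e 1) * (x - e 2) ∧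
    ∀ i, IsSquare ((x - e i) * d i)

/-- the local step -/
lemma rep_loc (h : Rt W e) {f : GQ → Points W QB} (hf2 : ∀ σ, f σ + f σ = 0) {d : Fin 3 → ℤ}
    (hd : Rep W e f d) (K : Type) [Field K] [Algebra ℚ K] (hl : LocallyTrivial W K f)
    (S : Pt W K) (hS : (S + S) + (S + S) ≠ 0) : LocG K e d := by
  have hG : IsGalois K (AlgebraicClosure K) := by
    haveI := algebraRat.charZero K
    infer_instance
  have hGQ : IsGalois ℚ QB := galQB
  obtain ⟨ι⟩ : Nonempty (QB →ₐ[ℚ] AlgebraicClosure K) := ⟨IsAlgClosed.lift⟩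
  obtain ⟨P0, hP0⟩ := hl ι
  choose res hres using exists_restrict (K := ℚ) (Ω := QB) (F := K) (Ω' := AlgebraicClosure K) ι
  set T : (AlgebraicClosure K ≃ₐ[K] AlgebraicClosure K) → Pt W (AlgebraicClosure K) :=
    fun τ => act W ι (f (res τ)) with hT
  have hT2 : ∀ τ, T τ + T τ = 0 := fun τ => (two_act W ι _).2 (hf2 _)
  have hTP0 : ∀ τ, act W (rs ℚ τ) P0 = P0 + T τ := by
    intro τ
    have h1 : T τ = act W (rs ℚ τ) P0 - P0 := hP0 τ (res τ) (hres τ)
    rw [h1]; abel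
  obtain ⟨P, hP4, hTP⟩ : ∃ P : Pt W (AlgebraicClosure K), (P + P) + (P + P) ≠ 0 ∧
      ∀ τ : AlgebraicClosure K ≃ₐ[K] AlgebraicClosure K, act W (rs ℚ τ) P = P + T τ := by
    by_cases h4 : (P0 + P0) + (P0 + P0) = 0
    · refine ⟨P0 + act W (incl ℚ K (AlgebraicClosure K)) S, ?_, fun τ => ?_⟩
      · intro h0
        apply hS
        apply act_inj W (incl ℚ K (AlgebraicClosure K))
        rw [map_add, map_add, map_zero, ← h0]
        have : ∀ a s : Pt W (AlgebraicClosure K), (a + a) + (a + a) = 0 →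
            s + s + (s + s) = a + s + (a + s) + (a + s + (a + s)) := by
          intro a s ha
          have e : a + s + (a + s) + (a + s + (a + s)) = ((a + a) + (a + a)) +
            (s + s + (s + s)) := by abel
          rw [e, ha, zero_add]
        exact this _ _ h4
      · rw [map_add, hTP0, rs_act_incl]
        abel
    · exact ⟨P0, h4, hTP0⟩
  have hPP : ∀ τ : AlgebraicClosure K ≃ₐ[K] AlgebraicClosure K,
      act W (rs ℚ τ) (P + P) = P + P := by
    intro τ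
    rw [map_add, hTP, add_add_add_comm, hT2, add_zero]
  obtain ⟨Q, hQ⟩ := Pool.Agent.W309.TD.fixed_point (K := ℚ) (F := K) W (P + P) hPP
  rcases Q with _ | ⟨X, Y, hXY⟩
  · exfalso
    have h0 : P + P = 0 := hQ.symm
    rw [h0] at hP4
    exact hP4 (add_zero _)
  have hY : Y ≠ 0 := by
    intro h0
    apply hP4
    rw [← hQ, ← map_add]
    have := (add_self_eq_zero_iff (isR h K) hXY).2 h0
    rw [this, map_zero]
  have hfK := (isR h K).nonsingular.1 hXY
  rw [map_intCast, map_intCast, map_intCast] at hfK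
  refine ⟨X, Y, hY, hfK, fun i => ?_⟩
  obtain ⟨b, c, hR⟩ := isRi h i
  obtain ⟨t, ht, htd, hσ⟩ := hd.2 i
  have := loc_sq W (K := ℚ) (F := K) (Ω' := AlgebraicClosure K)
    (hR (AlgebraicClosure K)) hT2 hTP hP4
    hQ.symm (t := ι t) (d := (d i : ℚ)) ((map_ne_zero ι).2 ht)
    (by rw [← map_pow, htd, ι.commutes]) (fun τ => by
      have h1 := congrArg (fun φ : QB →ₐ[ℚ] AlgebraicClosure K => φ t) (hres τ)
      have h2 : τ (ι t) = ι ((res τ) t) := h1
      have h3 := sg_act W ι (algebraMap ℚ QB (e i : ℚ)) (f (res τ))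
      rw [ι.commutes] at h3
      rw [h2, hσ, map_mul, ← h3])
  rwa [map_intCast, map_intCast] at this

/-- a point that is not killed by four -/
lemma exists_S (h : Rt W e) (K : Type) [Field K] [Algebra ℚ K] (x y : ℕ → K)
    (hx : Function.Injective x)
    (hxy : ∀ n, y n ^ 2 = (x n - e 0) * (x n - e 1) * (x n - e 2)) :
    ∃ S : Pt W K, (S + S) + (S + S) ≠ 0 := by
  have hR := isR h K
  by_contra hcon
  push Not at hcon
  have hns : ∀ n, (W.baseChange K).toAffine.Nonsingular (x n) (y n) := by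
    intro n
    rw [hR.nonsingular, map_intCast, map_intCast, map_intCast]
    exact hxy n
  have h1 := (tor4_finite hR).subset (fun S _ => hcon S : (Set.univ : Set _) ⊆ _)
  have h2 : (Set.range (fun n => (Point.some (x n) (y n) (hns n) :
      (W.baseChange K).toAffine.Point))).Infinite := by
    apply Set.infinite_range_of_injective
    intro n m hnm
    exact hx (Point.some.inj hnm).1
  exact h2 (h1.subset (Set.subset_univ _))

lemma exists_S_real (h : Rt W e) : ∃ S : Pt W ℝ, (S + S) + (S + S) ≠ 0 := by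
  set x : ℕ → ℝ := fun n => |(e 0 : ℝ)| + |(e 1 : ℝ)| + |(e 2 : ℝ)| + n with hx
  have hp : ∀ n, 0 ≤ (x n - e 0) * (x n - e 1) * (x n - e 2) := by
    intro n
    have a1 := le_abs_self (e 0 : ℝ)
    have a2 := le_abs_self (e 1 : ℝ)
    have a3 := le_abs_self (e 2 : ℝ)
    have b1 := abs_nonneg (e 0 : ℝ)
    have b2 := abs_nonneg (e 1 : ℝ)
    have b3 := abs_nonneg (e 2 : ℝ)
    have b4 : (0 : ℝ) ≤ n := Nat.cast_nonneg n
    have p1 : 0 ≤ x n - e 0 := by simp only [hx]; linarith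
    have p2 : 0 ≤ x n - e 1 := by simp only [hx]; linarith
    have p3 : 0 ≤ x n - e 2 := by simp only [hx]; linarith
    positivity
  refine exists_S h ℝ x (fun n => Real.sqrt ((x n - e 0) * (x n - e 1) * (x n - e 2))) ?_
    (fun n => Real.sq_sqrt (hp n))
  intro n m hnm
  simp only [hx] at hnm
  exact_mod_cast (add_left_cancel hnm)

lemma exists_S_padic (h : Rt W e) (p : ℕ) [hp : Fact p.Prime] :
    ∃ S : Pt W ℚ_[p], (S + S) + (S + S) ≠ 0 := by
  choose r1 q1 using hensn p (e 0)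
  choose r2 q2 using hensn p (e 1)
  choose r3 q3 using hensn p (e 2)
  refine exists_S h ℚ_[p] (fun n => 1 / (2 * p ^ (n + 1)) ^ 2) (fun n => r1 n * r2 n * r3 n) ?_
    (fun n => by rw [← q1, ← q2, ← q3]; ring)
  intro n m hnm
  have hp0 : (p : ℚ) ≠ 0 := by exact_mod_cast hp.out.ne_zero
  have h1 : ((1 / (2 * p ^ (n + 1)) ^ 2 : ℚ) : ℚ_[p]) = ((1 / (2 * p ^ (m + 1)) ^ 2 : ℚ) : ℚ_[p]) := by
    push_cast
    exact hnm
  have h2 : (1 / (2 * p ^ (n + 1)) ^ 2 : ℚ) = 1 / (2 * p ^ (m + 1)) ^ 2 := by exact_mod_cast h1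
  rw [one_div, one_div, inv_inj, mul_pow, mul_pow] at h2
  have h3 : ((p : ℚ) ^ (n + 1)) ^ 2 = ((p : ℚ) ^ (m + 1)) ^ 2 := by linarith
  have h4 : (p ^ (n + 1)) ^ 2 = (p ^ (m + 1)) ^ 2 := by exact_mod_cast h3
  have h5 : p ^ (n + 1) = p ^ (m + 1) := Nat.pow_left_injective (n := 2) (by norm_num) h4
  have h6 := Nat.pow_right_injective hp.out.two_le h5
  omega

/-- the 2-Selmer group -/
def SelG (e : Fin 3 → ℤ) : Set (Fin 3 → ℤ) :=
  {d | (∀ i, Squarefree (d i)) ∧ LocG ℝ e d ∧ ∀ (p : ℕ) [Fact p.Prime], LocG ℚ_[p] e d}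

/-- the cocycles with values in the points of order two that are trivial at all places give
elements of the 2-Selmer group -/
lemma rep_sel (h : Rt W e) {f : GQ → Points W QB} (hf : IsShaCocycle W f)
    (hf2 : ∀ σ, f σ + f σ = 0) {d : Fin 3 → ℤ} (hd : Rep W e f d) : d ∈ SelG e := by
  refine ⟨hd.1, ?_, ?_⟩
  · obtain ⟨S, hS⟩ := exists_S_real h
    exact rep_loc h hf2 hd ℝ hf.2.2 S hS
  · intro p _
    obtain ⟨S, hS⟩ := exists_S_padic h p
    exact rep_loc h hf2 hd ℚ_[p] (hf.2.1 p) S hS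

/-- the cocycles of the proof -/
def GoodC (W : WeierstrassCurve ℚ) (f : GQ → Points W QB) : Prop :=
  IsShaCocycle W f ∧ ∀ σ, f σ + f σ = 0

lemma goodC_add {f g : GQ → Points W QB} (hf : GoodC W f) (hg : GoodC W g) :
    GoodC W (f + g) := by
  refine ⟨(shaCocycles W).add_mem hf.1 hg.1, fun σ => ?_⟩
  rw [Pi.add_apply, add_add_add_comm, hf.2, hg.2, add_zero]

/-- every class killed by two has a representative with values in the points of order two -/
lemma exists_good (h : Rt W e) (c : Sha W) (hc : 2 • c = 0) :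
    ∃ f : shaCocycles W, GoodC W f.1 ∧ QuotientAddGroup.mk f = c := by
  obtain ⟨f0, rfl⟩ := QuotientAddGroup.mk_surjective c
  have h1 : 2 • f0 ∈ (coboundaries W).addSubgroupOf (shaCocycles W) := by
    rw [← QuotientAddGroup.eq_zero_iff]
    exact hc
  rw [AddSubgroup.mem_addSubgroupOf] at h1
  obtain ⟨Q, hQ⟩ := h1
  obtain ⟨R, hR⟩ := halve_sep (isR h QB) Q
  have hcob := cob_sha W R
  have hcob' : (fun σ : GQ => pmap W σ.toAlgHom R - R) ∈ shaCocycles W := hcob
  refine ⟨f0 - ⟨_, hcob'⟩, ⟨(shaCocycles W).sub_mem f0.2 hcob', fun σ => ?_⟩, ?_⟩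
  · have h2 := hQ σ
    show (f0.1 σ - (pmap W σ.toAlgHom R - R)) + (f0.1 σ - (pmap W σ.toAlgHom R - R)) = 0
    have h3 : f0.1 σ + f0.1 σ = pmap W σ.toAlgHom Q - Q := by
      rw [← h2, ← two_nsmul]; rfl
    have h4 : (f0.1 σ - (pmap W σ.toAlgHom R - R)) +
        (f0.1 σ - (pmap W σ.toAlgHom R - R)) =
        (f0.1 σ + f0.1 σ) - (pmap W σ.toAlgHom (R + R) - (R + R)) := by
      rw [map_add]; abel
    rw [h4, hR, h3, sub_self]
  · rw [QuotientAddGroup.eq, AddSubgroup.mem_addSubgroupOf]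
    have e : (-(f0 - ⟨_, hcob'⟩) + f0 : shaCocycles W) =
        ⟨fun σ => pmap W σ.toAlgHom R - R, hcob'⟩ := by abel
    rw [e]
    exact ⟨R, fun σ => rfl⟩

/-- the Kummer cocycle of a rational point -/
lemma exists_kum (h : Rt W e) (P : W.toAffine.Point) : ∃ H : Points W QB, H + H = inc W P ∧
      GoodC W (fun σ => pmap W σ.toAlgHom H - H) := by
  obtain ⟨H, hH⟩ := halve_sep (isR h QB) (inc W P)
  refine ⟨H, hH, cob_sha _ H, fun σ => ?_⟩
  show (pmap W σ.toAlgHom H - H) + (pmap W σ.toAlgHom H - H) = 0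
  rw [sub_add_sub_comm, ← map_add, hH, inc_fix, sub_self]

/-- the injection -/
lemma exists_inj (h : Rt W e) :
    ∃ Ψ : ShaTorsion W 2 × (W.toAffine.Point ⧸ dbl W) → SelG e, Function.Injective Ψ := by
  choose f hf hfc using fun c : ShaTorsion W 2 => exists_good h c.1 c.2
  choose H hH hHg using exists_kum h
  have hg : ∀ (c : ShaTorsion W 2) (P : W.toAffine.Point),
      GoodC W ((f c).1 + fun σ => pmap W σ.toAlgHom (H P) - H P) :=
    fun c P => goodC_add (hf c) (hHg P)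
  choose d hd using fun (c : ShaTorsion W 2) (P : W.toAffine.Point) =>
    exists_rep h (hg c P).1.1 (hg c P).2
  refine ⟨fun x => ⟨d x.1 x.2.out, rep_sel h (hg x.1 x.2.out).1 (hg x.1 x.2.out).2
    (hd x.1 x.2.out)⟩, ?_⟩
  rintro ⟨c, x⟩ ⟨c', x'⟩ hxx
  have h1 : d c x.out = d c' x'.out := congrArg Subtype.val hxx
  have h2 := rep_inj h (hg c x.out).2 (hg c' x'.out).2 (hd c x.out)
    (by rw [h1]; exact hd c' x'.out)
  have h3 : c = c' := by
    apply Subtype.ext
    rw [← hfc c, ← hfc c', QuotientAddGroup.eq, AddSubgroup.mem_addSubgroupOf]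
    refine ⟨H x.out - H x'.out, fun σ => ?_⟩
    have h4 := congrFun h2 σ
    simp only [Pi.add_apply] at h4
    show -(f c).1 σ + (f c').1 σ = _
    rw [map_sub]
    have h5 : (f c').1 σ = (f c).1 σ + (pmap W σ.toAlgHom (H x.out) - H x.out) -
        (pmap W σ.toAlgHom (H x'.out) - H x'.out) := by
      rw [h4]; abel
    rw [h5]
    abel
  subst h3
  have h4 : ∀ σ : GQ, pmap W σ.toAlgHom (H x.out - H x'.out) = H x.out - H x'.out := by
    intro σ
    have h5 := congrFun h2 σ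
    simp only [Pi.add_apply, add_right_inj] at h5
    rw [map_sub]
    have h6 : pmap W σ.toAlgHom (H x.out) =
        (pmap W σ.toAlgHom (H x'.out) - H x'.out) + H x.out := by
      rw [← h5]; abel
    rw [h6]; abel
  obtain ⟨P, hP⟩ := exists_inc _ _ h4
  have h5 : x = x' := by
    have h6 : P + P = x.out - x'.out := by
      apply inc_inj
      rw [map_add, hP, map_sub, ← hH, ← hH]
      abel
    have h7 : (QuotientAddGroup.mk x'.out : W.toAffine.Point ⧸ dbl W) =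
        QuotientAddGroup.mk x.out := by
      rw [QuotientAddGroup.eq, mem_dbl]
      exact ⟨P, by rw [h6]; abel⟩
    rw [QuotientAddGroup.out_eq', QuotientAddGroup.out_eq'] at h7
    exact h7.symm
  rw [h5]

/-- the rank and the index of the doubles -/
lemma rank_le (h : Rt W e) [Finite (W.toAffine.Point ⧸ dbl W)] :
    2 ^ Module.finrank ℤ W.toAffine.Point ≤ Nat.card (W.toAffine.Point ⧸ dbl W) := by
  have hfg : AddGroup.FG W.toAffine.Point := by
    have hW : W = Pool.Agent.H437R2.Man.MW.crv (-(e 0 : ℚ)) (-(e 1 : ℚ)) (-(e 2 : ℚ)) := by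
      apply WeierstrassCurve.ext
      · exact h.a1
      · rw [h.a2]
        show _ = -(e 0 : ℚ) + -(e 1 : ℚ) + -(e 2 : ℚ)
        ring
      · exact h.a3
      · rw [h.a4]
        show _ = -(e 0 : ℚ) * -(e 1 : ℚ) + -(e 0 : ℚ) * -(e 2 : ℚ) + -(e 1 : ℚ) * -(e 2 : ℚ)
        ring
      · rw [h.a6]
        show _ = -(e 0 : ℚ) * -(e 1 : ℚ) * -(e 2 : ℚ)
        ring
    have q12 : -(e 0 : ℚ) ≠ -(e 1 : ℚ) := fun h' => h.n01 (by exact_mod_cast neg_injective h')
    have q13 : -(e 0 : ℚ) ≠ -(e 2 : ℚ) := fun h' => h.n02 (by exact_mod_cast neg_injective h')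
    have q23 : -(e 1 : ℚ) ≠ -(e 2 : ℚ) := fun h' => h.n12 (by exact_mod_cast neg_injective h')
    have := Pool.Agent.H437R2.Man.MW.pt_fg q12 q13 q23
    rw [hW]
    exact this
  haveI := Fintype.ofFinite (W.toAffine.Point ⧸ dbl W)
  set T : Finset W.toAffine.Point :=
    (Finset.univ : Finset (W.toAffine.Point ⧸ dbl W)).image Quotient.out with hT
  have hTc : T.card = Nat.card (W.toAffine.Point ⧸ dbl W) := by
    rw [hT, Finset.card_image_of_injective _ Quotient.out_injective, Finset.card_univ,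
      Nat.card_eq_fintype_card]
    rfl
  refine (Pool.Agent.W505.RK.rkb _ hfg _ T le_rfl ?_).trans hTc.le
  intro g
  refine ⟨(QuotientAddGroup.mk g : W.toAffine.Point ⧸ dbl W).out,
    Finset.mem_image.2 ⟨_, Finset.mem_univ _, rfl⟩, ?_⟩
  have h1 : (QuotientAddGroup.mk (QuotientAddGroup.mk g :
      W.toAffine.Point ⧸ dbl W).out : W.toAffine.Point ⧸ dbl W) =
        QuotientAddGroup.mk g := QuotientAddGroup.out_eq' _
  rw [QuotientAddGroup.eq, mem_dbl] at h1
  obtain ⟨q, hq⟩ := h1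
  exact ⟨q, by rw [hq]; abel⟩

/-- **the main comparison** -/
theorem sha_selG (h : Rt W e) (hfin : (SelG e).Finite) :
    Finite (ShaTorsion W 2) ∧
      2 ^ Module.finrank ℤ W.toAffine.Point * Nat.card (ShaTorsion W 2) ≤ (SelG e).ncard := by
  obtain ⟨Ψ, hΨ⟩ := exists_inj h
  haveI : Finite (SelG e) := hfin
  haveI hf := Finite.of_injective Ψ hΨ
  haveI : Finite (ShaTorsion W 2) :=
    Finite.of_injective (fun c => ((c, 0) : ShaTorsion W 2 ×
      (W.toAffine.Point ⧸ dbl W))) (fun c c' h => (Prod.ext_iff.1 h).1)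
  haveI : Finite (W.toAffine.Point ⧸ dbl W) :=
    Finite.of_injective (fun c => ((⟨0, by simp⟩, c) : ShaTorsion W 2 ×
      (W.toAffine.Point ⧸ dbl W))) (fun c c' h => (Prod.ext_iff.1 h).2)
  refine ⟨inferInstance, ?_⟩
  calc 2 ^ Module.finrank ℤ W.toAffine.Point * Nat.card (ShaTorsion W 2)
      ≤ Nat.card (W.toAffine.Point ⧸ dbl W) * Nat.card (ShaTorsion W 2) :=
        Nat.mul_le_mul_right _ (rank_le h)
    _ = Nat.card (ShaTorsion W 2 × (W.toAffine.Point ⧸ dbl W)) := by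
        rw [Nat.card_prod, mul_comm]
    _ ≤ Nat.card (SelG e) := Nat.card_le_card_of_injective Ψ hΨ
    _ = (SelG e).ncard := Nat.card_coe_set_eq _

/-- comparison with the Selmer pairs of `y² = x (x - A) (x - B)` -/
theorem selG_sel (A B : ℤ) (hfin : (Sel A B).Finite) :
    (SelG ![0, A, B]).Finite ∧ (SelG ![0, A, B]).ncard ≤ (Sel A B).ncard := by
  have hloc : ∀ (K : Type) [Field K] (d : Fin 3 → ℤ), LocG K ![0, A, B] d →
      Loc K A B (d 0) (d 1) := by
    intro K _ d ⟨x, y, hy, h1, h2⟩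
    refine ⟨x, y, hy, ?_, ?_, ?_⟩
    · simpa using h1
    · simpa using h2 0
    · simpa using h2 1
  have hprod : ∀ (K : Type) [Field K] (d : Fin 3 → ℤ), LocG K ![0, A, B] d →
      IsSquare ((d 0 : K) * d 1 * d 2) := by
    intro K _ d ⟨x, y, hy, h1, h2⟩
    obtain ⟨s, hs⟩ := ((h2 0).mul (h2 1)).mul (h2 2)
    refine ⟨s / y, ?_⟩
    rw [div_mul_div_comm, ← hs, eq_div_iff (mul_ne_zero hy hy), ← pow_two, h1]
    ring
  have hmaps : ∀ d ∈ SelG ![0, A, B], (fun d : Fin 3 → ℤ => (d 0, d 1)) d ∈ Sel A B := by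
    rintro d ⟨hd1, hdR, hdp⟩
    exact ⟨hd1 0, hd1 1, hloc ℝ d hdR, fun p _ => hloc ℚ_[p] d (hdp p)⟩
  have hinj : Set.InjOn (fun d : Fin 3 → ℤ => (d 0, d 1)) (SelG ![0, A, B]) := by
    rintro d ⟨hd1, hdR, hdp⟩ d' ⟨hd1', hdR', hdp'⟩ heq
    have e0 : d 0 = d' 0 := (Prod.mk.inj heq).1
    have e1 : d 1 = d' 1 := (Prod.mk.inj heq).2
    have key : ∀ (K : Type) [Field K] [CharZero K], IsSquare ((d 0 : K) * d 1 * d 2) →
        IsSquare ((d' 0 : K) * d' 1 * d' 2) → IsSquare ((d 2 : K) * d' 2) := by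
      intro K _ _ h1 h2
      rw [← e0, ← e1] at h2
      obtain ⟨s, hs⟩ := h1.mul h2
      have n0 : (d 0 : K) ≠ 0 := Int.cast_ne_zero.2 (hd1 0).ne_zero
      have n1 : (d 1 : K) ≠ 0 := Int.cast_ne_zero.2 (hd1 1).ne_zero
      refine ⟨s / (d 0 * d 1), ?_⟩
      rw [div_mul_div_comm, ← hs, eq_div_iff (by positivity)]
      ring
    have e2 : d 2 = d' 2 := Pool.Agent.W597.SE.eq_of_sq (hd1 2) (hd1' 2)
      (key ℝ (hprod ℝ d hdR) (hprod ℝ d' hdR'))
      (fun p _ => key ℚ_[p] (hprod _ d (hdp p)) (hprod _ d' (hdp' p)))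
    funext i
    fin_cases i
    · exact e0
    · exact e1
    · exact e2
  exact ⟨Set.Finite.of_injOn hmaps hinj hfin, Set.ncard_le_ncard_of_injOn _ hmaps hinj hfin⟩

/-- the curve `y² = x (x - A) (x - B)` -/
theorem sha_sel (A B : ℤ) (hA : A ≠ 0) (hB : B ≠ 0) (hAB : A ≠ B) (W : WeierstrassCurve ℚ)
    (hW : W = ⟨0, -((A : ℚ) + B), 0, (A : ℚ) * B, 0⟩) (hfin : (Sel A B).Finite) :
    Finite (ShaTorsion W 2) ∧
      2 ^ Module.finrank ℤ W.toAffine.Point * Nat.card (ShaTorsion W 2) ≤ (Sel A B).ncard := by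
  have h : Rt W ![0, A, B] := by
    subst hW
    refine ⟨rfl, ?_, rfl, ?_, ?_, ?_, ?_, ?_⟩
    · simp
    · simp
    · simp
    · simpa using hA.symm
    · simpa using hB.symm
    · simpa using hAB
  obtain ⟨h1, h2⟩ := selG_sel A B hfin
  obtain ⟨h3, h4⟩ := sha_selG h h1
  exact ⟨h3, h4.trans h2⟩

end Pool.Agent.TH344.SG
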