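import Mathlib
import Pool.Agent.TH344.SG.Rank
import Pool.Agent.TH344.SG.Loc

/-!
The average over short squares of the 2-Selmer groups in the families given by binary forms that
split (after `Pool.Agent.W307.RG.Bin`), and the Tate-Shafarevich groups.
-/

set_option autoImplicit false
set_option linter.all false

namespace Pool.Agent.TH344.SG

open Finset Pool.Agent.W262.RK Pool.Agent.W307.RT Pool.Agent.W307.RS Pool.Agent.W307.SE
open Pool.Agent.TH344.SH (ShaTorsion)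

variable {n : ℕ}

/-- the classes -/
def cl (n : ℕ) : Fin 3 × Fin n → Fin 4 := fun j => j.1.castSucc

/-- the binary form `a_k ∏ l_(k,i) (u, v) ^ m_(k,i)` -/
def bf (l : Fin 3 × Fin n → ℤ × ℤ) (m : Fin 3 × Fin n → ℕ) (a : Fin 3 → ℤ) (k : Fin 3) (u v : ℤ) :
    ℤ :=
  a k * ∏ i : Fin n, ((l (k, i)).1 * u + (l (k, i)).2 * v) ^ m (k, i)

lemma fc_cl (k : Fin 3) : fc (cl n) k = univ.image (fun i : Fin n => (k, i)) := by
  ext ⟨k', i⟩
  unfold fc
  rw [mem_filter, mem_image]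
  constructor
  · rintro ⟨_, h⟩
    have h1 : k' = k := Fin.castSucc_injective _ h
    exact ⟨i, mem_univ _, by rw [h1]⟩
  · rintro ⟨i', _, h1⟩
    obtain ⟨h2, h3⟩ := Prod.mk.inj h1
    exact ⟨mem_univ _, by rw [h2]; rfl⟩

lemma FM_cl (l : Fin 3 × Fin n → ℤ × ℤ) (m : Fin 3 × Fin n → ℕ) (a : Fin 3 → ℤ) (q : ℤ)
    (k : Fin 3) (u v : ℤ) :
    FM (cl n) a m (fv (fun j => (l j).1 + q * (l j).2) (fun j => (l j).2) u v) k =
      bf l m a k u (v + q * u) := by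
  unfold FM bf
  rw [fc_cl, prod_image (fun i _ j _ h => (Prod.mk.inj h).2)]
  congr 1
  refine prod_congr rfl fun i _ => ?_
  congr 1
  unfold fv
  ring

lemma exists_q (l : Fin 3 × Fin n → ℤ × ℤ) (h0 : ∀ j, l j ≠ 0) :
    ∃ q : ℕ, ∀ j, (l j).1 + (q : ℤ) * (l j).2 ≠ 0 := by
  classical
  obtain ⟨q, hq⟩ := Infinite.exists_notMem_finset
    (univ.image (fun j : Fin 3 × Fin n => (-(l j).1 / (l j).2).natAbs))
  refine ⟨q, fun j hj => hq ?_⟩
  rw [mem_image]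
  refine ⟨j, mem_univ _, ?_⟩
  by_cases h2 : (l j).2 = 0
  · rw [h2, mul_zero, add_zero] at hj
    exact absurd (Prod.ext hj h2) (h0 j)
  · have h3 : -(l j).1 = (q : ℤ) * (l j).2 := by linarith
    rw [h3, Int.mul_ediv_cancel _ h2]
    simp

lemma ne_zero_of (l : Fin 3 × Fin n → ℤ × ℤ)
    (hl : ∀ i j, i ≠ j → (l i).1 * (l j).2 ≠ (l j).1 * (l i).2) (j : Fin 3 × Fin n) : l j ≠ 0 := by
  intro h
  obtain ⟨k, i⟩ := j
  have hk : ∃ k' : Fin 3, k' ≠ k := exists_ne k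
  obtain ⟨k', hk'⟩ := hk
  refine hl (k, i) (k', i) (fun h' => hk' (Prod.mk.inj h').1.symm) ?_
  rw [h]
  simp

/-- the average over the coprime pairs of a short square for a family that splits -/
theorem bin (hn : Even n) (l : Fin 3 × Fin n → ℤ × ℤ) (m : Fin 3 × Fin n → ℕ)
    (hm : ∀ j, Odd (m j)) (a : Fin 3 → ℤ) (ha : ∀ k, a k ≠ 0) (hl : ∀ i j, i ≠ j → (l i).1 * (l j).2 ≠ (l j).1 * (l i).2)
    (hF : ∀ u v : ℤ, bf l m a 0 u v - bf l m a 1 u v = bf l m a 2 u v) (L : ℕ) :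
    ∃ C : ℝ, ∀ (X : ℕ) (U V : ℤ), 1 ≤ X → U.natAbs ≤ X ^ L → V.natAbs ≤ X ^ L →
      ∑ t ∈ (Ioc U (U + X) ×ˢ Ioc V (V + X)).filter (fun t : ℤ × ℤ => IsCoprime t.1 t.2 ∧
        ∀ k, bf l m a k t.1 t.2 ≠ 0),
        SN (bf l m a 0 t.1 t.2) (bf l m a 1 t.1 t.2) ≤ C * (X : ℝ) ^ 2 := by
  classical
  obtain ⟨q, hq⟩ := exists_q l (ne_zero_of l hl)
  have hcls : ∀ j, cl n j ≠ 3 := by
    intro j
    unfold cl
    exact (Fin.castSucc_lt_last j.1).ne
  have hres : ∀ j j', j ≠ j' →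
      Res (fun j => (l j).1 + (q : ℤ) * (l j).2) (fun j => (l j).2) j j' ≠ 0 := by
    intro j j' hj
    have h1 := hl j j' hj
    unfold Res
    intro h2
    apply h1
    linear_combination h2
  have hcard : ∀ k : Fin 3, (fc (cl n) k).card = n := by
    intro k
    rw [fc_cl, card_image_of_injective _ (fun i j h => (Prod.mk.inj h).2), card_univ,
      Fintype.card_fin]
  obtain ⟨C, hC⟩ := famg (Fin 3 × Fin n) (cl n) a m
    (fun j => (l j).1 + (q : ℤ) * (l j).2) (fun j => (l j).2) hcls ha (fun j => (hm j).pos)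
    hq hres
    (fun k => by
      rw [Finset.even_sum_iff_even_card_odd, filter_true_of_mem (fun j _ => hm j), hcard]
      exact hn)
    (fun j => Or.inl (hm j))
    (fun u v => by rw [FM_cl, FM_cl, FM_cl]; exact hF _ _)
    (ma4 Pool.Agent.W762.RK2.exp4 Pool.Agent.W125.RK2.comb4 (cl n) _ n _ (fun k hk => by
      obtain ⟨k', rfl⟩ : ∃ k' : Fin 3, k'.castSucc = k := by
        have h2 := k.isLt
        have h3 : (k : ℕ) ≠ 3 := fun h => hk (Fin.ext h)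
        exact ⟨⟨k, by omega⟩, rfl⟩
      exact hcard k') (fun j _ => by
      unfold kapM
      refine mul_ne_zero ?_ (mul_ne_zero (ha _) (prod_ne_zero_iff.2 fun l' hl' => ?_))
      · unfold sgM
        split_ifs <;> norm_num
      · apply pow_ne_zero
        apply hres
        intro h
        subst h
        have h1 := (mem_filter.1 hl').2
        unfold cl at h1
        rcases j with ⟨k, i⟩
        have h2 : k = cpM k.castSucc := Fin.castSucc_injective _ h1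
        revert h2
        unfold cpM
        fin_cases k <;> simp))
    q (fun u v => -(bf l m a 0 u v)) (fun u v => -(bf l m a 1 u v))
    (fun u v => by rw [FM_cl, neg_neg]) (fun u v => by rw [FM_cl, neg_neg]) L
  refine ⟨C, fun X U V hX hU hV => le_trans ?_ (hC U V X hX hU hV)⟩
  have hsh : (Icc 1 X ×ˢ Icc 1 X).image
      (fun t : ℕ × ℕ => ((U + (t.1 : ℤ), V + (t.2 : ℤ)) : ℤ × ℤ)) =
      Ioc U (U + X) ×ˢ Ioc V (V + X) := by
    ext ⟨x, y⟩
    simp only [mem_image, mem_product, mem_Icc, mem_Ioc, Prod.mk.injEq, Prod.exists]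
    constructor
    · rintro ⟨s, t, ⟨⟨h1, h2⟩, h3, h4⟩, rfl, rfl⟩
      refine ⟨⟨?_, ?_⟩, ?_, ?_⟩ <;> omega
    · rintro ⟨⟨h1, h2⟩, h3, h4⟩
      refine ⟨(x - U).toNat, (y - V).toNat, ⟨⟨?_, ?_⟩, ?_, ?_⟩, ?_, ?_⟩ <;> omega
  rw [← hsh, sum_filter, sum_image (fun s _ t _ h => by
    obtain ⟨h1, h2⟩ := Prod.mk.inj h
    exact Prod.ext (by omega) (by omega))]
  refine sum_le_sum fun t _ => ?_
  unfold GGg
  split_ifs with h1 h2 h2
  · rw [neg_neg, neg_neg]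
  · exfalso
    apply h2
    refine ⟨h1.1, neg_ne_zero.2 (h1.2 0), neg_ne_zero.2 (h1.2 1), fun h => h1.2 2 ?_⟩
    rw [← hF]
    linear_combination -h
  · exact SN_nonneg _ _
  · exact le_rfl

open Classical in
/-- the sum of `2 ^ rank * #Ш[2]` over the coprime pairs of a short square -/
theorem bin_sha (hn : Even n) (l : Fin 3 × Fin n → ℤ × ℤ) (m : Fin 3 × Fin n → ℕ)
    (hm : ∀ j, Odd (m j)) (a : Fin 3 → ℤ) (ha : ∀ k, a k ≠ 0)
    (hl : ∀ i j, i ≠ j → (l i).1 * (l j).2 ≠ (l j).1 * (l i).2)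
    (hF : ∀ u v : ℤ, bf l m a 0 u v - bf l m a 1 u v = bf l m a 2 u v) (L : ℕ)
    (E : ℤ → ℤ → WeierstrassCurve ℚ)
    (hE : ∀ A B, E A B = ⟨0, -((A : ℚ) + B), 0, (A : ℚ) * B, 0⟩) :
    ∃ C : ℝ, ∀ (X : ℕ) (U V : ℤ), 1 ≤ X → U.natAbs ≤ X ^ L → V.natAbs ≤ X ^ L →
      ∑ t ∈ (Ioc U (U + X) ×ˢ Ioc V (V + X)).filter (fun t : ℤ × ℤ => IsCoprime t.1 t.2 ∧
        ∀ k, bf l m a k t.1 t.2 ≠ 0),
        (2 : ℝ) ^ Module.finrank ℤ
          (E (bf l m a 0 t.1 t.2) (bf l m a 1 t.1 t.2)).toAffine.Point *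
        Nat.card (ShaTorsion (E (bf l m a 0 t.1 t.2) (bf l m a 1 t.1 t.2)) 2) ≤
          C * (X : ℝ) ^ 2 := by
  obtain ⟨C, hC⟩ := bin hn l m hm a ha hl hF L
  refine ⟨C, fun X U V hX hU hV => le_trans (sum_le_sum fun t ht => ?_) (hC X U V hX hU hV)⟩
  rw [mem_filter] at ht
  obtain ⟨-, -, h0⟩ := ht
  have hne : bf l m a 0 t.1 t.2 ≠ bf l m a 1 t.1 t.2 := by
    intro h
    apply h0 2
    rw [← hF, h, sub_self]
  obtain ⟨-, h1⟩ := sha_sel _ _ (h0 0) (h0 1) hne _ (hE _ _)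
    (Pool.Agent.W701.FK.sel_fin' (h0 0) (h0 1) hne)
  unfold SN
  exact_mod_cast h1

end Pool.Agent.TH344.SG
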