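import Mathlib
import Pool.Agent.TH344.SH.Def

/-! The corank of the 2-primary part of an abelian group. -/

set_option autoImplicit false

namespace Pool.Agent.TH344.SG

/-- The corank of the 2-primary part of the abelian group `G`: the largest `t` such that
`(ℤ / 2 ^ n) ^ t` embeds in `G` for all `n`. (If the elements of `G` killed by two form a finite
group, the 2-primary part is the direct sum of `t` copies of `ℚ_2 / ℤ_2` and a finite group; it is
finite if and only if `t = 0`.) -/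
noncomputable def corank2 (G : Type) [AddCommGroup G] : ℕ :=
  sSup {t : ℕ | ∀ n : ℕ, ∃ f : (Fin t → ZMod (2 ^ n)) →+ G, Function.Injective f}

lemma corank2_mem (G : Type) [AddCommGroup G] {B : ℕ}
    (hB : ∀ t : ℕ, (∀ n : ℕ, ∃ f : (Fin t → ZMod (2 ^ n)) →+ G, Function.Injective f) → t ≤ B) :
    ∀ n : ℕ, ∃ f : (Fin (corank2 G) → ZMod (2 ^ n)) →+ G, Function.Injective f := by
  have h := Nat.sSup_mem (s := {t : ℕ | ∀ n : ℕ, ∃ f : (Fin t → ZMod (2 ^ n)) →+ G,
    Function.Injective f}) ⟨0, fun n => ⟨0, fun v w _ => Subsingleton.elim v w⟩⟩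
    ⟨B, fun t ht => hB t ht⟩
  exact h

/-- the elements of the image of `(ℤ / 2) ^ t` are killed by two -/
lemma pow_le_of {G : Type} [AddCommGroup G] {n t : ℕ} (hfin : Finite {c : G // 2 ^ n • c = 0})
    (h : ∃ f : (Fin t → ZMod (2 ^ n)) →+ G, Function.Injective f) :
    (2 ^ n) ^ t ≤ Nat.card {c : G // 2 ^ n • c = 0} := by
  obtain ⟨f, hf⟩ := h
  have h1 : Nat.card (Fin t → ZMod (2 ^ n)) = (2 ^ n) ^ t := by
    rw [Nat.card_fun, Nat.card_zmod, Nat.card_fin]
  rw [← h1]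
  have h2 : ∀ v : Fin t → ZMod (2 ^ n), 2 ^ n • f v = 0 := by
    intro v
    rw [← map_nsmul]
    have h3 : 2 ^ n • v = 0 := by
      funext i
      rw [Pi.smul_apply, Pi.zero_apply, nsmul_eq_mul]
      have h4 : ((2 ^ n : ℕ) : ZMod (2 ^ n)) = 0 := ZMod.natCast_self _
      rw [h4, zero_mul]
    rw [h3, map_zero]
  exact Nat.card_le_card_of_injective
    (fun v => (⟨f v, h2 v⟩ : {c : G // 2 ^ n • c = 0}))
    (fun v w hvw => hf (congrArg Subtype.val hvw))

/-- if `G[2 ^ n]` is finite, `n ≥ 1`, then `(2 ^ n) ^ corank ≤ #G[2 ^ n]` -/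
lemma corank2_le {G : Type} [AddCommGroup G] {n : ℕ} (hn : 1 ≤ n)
    (hfin : Finite {c : G // 2 ^ n • c = 0}) :
    (2 ^ n) ^ corank2 G ≤ Nat.card {c : G // 2 ^ n • c = 0} := by
  apply pow_le_of hfin
  apply corank2_mem G (B := Nat.card {c : G // 2 ^ n • c = 0})
  intro t ht
  have h1 := pow_le_of hfin (ht n)
  have h2 : t < 2 ^ t := Nat.lt_pow_self (by norm_num)
  have h3 : 2 ^ t ≤ (2 ^ n) ^ t := Nat.pow_le_pow_left (by
    calc 2 = 2 ^ 1 := (pow_one 2).symm
      _ ≤ 2 ^ n := Nat.pow_le_pow_right (by norm_num) hn) t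
  omega

end Pool.Agent.TH344.SG
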